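import Pool.Agent.helper48.AN.SpecA

/-!
# Project an, module TD: bijectivity of Kodaira-Spencer
-/

namespace AN

open scoped Classical

noncomputable section

/-- decomposition of a Laurent series modulo vector fields and power series -/
lemma TD_dec {K : Type} [Field K] {g N : ℕ} {γ : Fin g → ℕ} {a : ℕ → LS K} {ν : Fin N → ℕ}
    {τ : ℕ → LS K} (hT : IsT γ a ν τ) (x : LS K) :
    ∃ c : Fin N → K, ∃ t ∈ TT ν τ, ∃ ρ ∈ PS K, x = (∑ j, mono (-(ν j : ℤ)) (c j)) + t + ρ := by
  obtain ⟨N0, hN0⟩ := exists_lb_nat x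
  set t : LS K := ∑ n ∈ Finset.range (N0 + 1),
    if 1 ≤ n ∧ ¬ Gp ν n then cf x (-(n : ℤ)) • τ n else 0 with htdef
  have ht : t ∈ TT ν τ := by
    refine Submodule.sum_mem _ fun n _ => ?_
    split_ifs with h
    · exact Submodule.smul_mem _ _ (Submodule.subset_span ⟨n, h.1, h.2, rfl⟩)
    · exact Submodule.zero_mem _
  have hcf : ∀ n' : ℕ, 1 ≤ n' → ¬ Gp ν n' → cf (x - t) (-(n' : ℤ)) = 0 := by
    intro n' h1 h2
    have hterm : ∀ n ∈ Finset.range (N0 + 1),
        cf (if 1 ≤ n ∧ ¬ Gp ν n then cf x (-(n : ℤ)) • τ n else 0) (-(n' : ℤ))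
          = if n = n' then cf x (-(n' : ℤ)) else 0 := by
      intro n _
      by_cases h : 1 ≤ n ∧ ¬ Gp ν n
      · rw [if_pos h, cf_smul, hT.coef n n' h.1 h1 h.2 h2]
        by_cases e : n = n'
        · subst e; simp
        · rw [if_neg e, if_neg e, mul_zero]
      · rw [if_neg h, cf_zero]
        have e : n ≠ n' := by
          rintro rfl
          exact h ⟨h1, h2⟩
        rw [if_neg e]
    rw [cf_sub, htdef, cf_sum, Finset.sum_congr rfl hterm, Finset.sum_ite_eq']
    split_ifs with h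
    · ring
    · rw [Finset.mem_range] at h
      rw [hN0 _ (by omega)]
      ring
  refine ⟨fun j => cf (x - t) (-(ν j : ℤ)), t, ht,
    x - t - ∑ j, mono (-(ν j : ℤ)) (cf (x - t) (-(ν j : ℤ))), ?_, by ring⟩
  intro n hn
  obtain ⟨m, hm, rfl⟩ : ∃ m : ℕ, 1 ≤ m ∧ n = -(m : ℤ) := ⟨(-n).toNat, by omega, by omega⟩
  rw [cf_sub, cf_sum]
  have hterm : ∀ j ∈ (Finset.univ : Finset (Fin N)),
      cf (mono (-(ν j : ℤ)) (cf (x - t) (-(ν j : ℤ)))) (-(m : ℤ))
        = if ν j = m then cf (x - t) (-(m : ℤ)) else 0 := by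
    intro j _
    rw [cf_mono]
    by_cases e : ν j = m
    · rw [if_pos e, if_pos (by omega), e]
    · rw [if_neg e, if_neg (by omega)]
  rw [Finset.sum_congr rfl hterm]
  by_cases hg : Gp ν m
  · obtain ⟨j, hj⟩ := hg
    rw [Finset.sum_eq_single j (fun j' _ hne => if_neg fun e => hne (hT.inj (e.trans hj.symm)))
      (fun h => absurd (Finset.mem_univ j) h), if_pos hj, sub_self]
  · rw [Finset.sum_eq_zero (fun j _ => if_neg fun e => hg ⟨j, e⟩), sub_zero]
    exact hcf m hm hg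

/-- independence of the gap monomials modulo `A + R[[s]]` -/
lemma TD_ind (hKA : KA_stmt) (hKB : KB_stmt) {K : Type} [Field K] {g : ℕ} {γ : Fin g → ℕ}
    {a : ℕ → LS K} (hK : IsK γ a) :
    LinearIndependent K (fun i : Fin g => (AA γ a ⊔ PS K).mkQ (mono (-(γ i : ℤ)) (1 : K))) := by
  rw [Fintype.linearIndependent_iff]
  intro c hc
  have h1 : (∑ i, mono (-(γ i : ℤ)) (c i) : LS K) ∈ AA γ a ⊔ PS K := by
    rw [← Submodule.Quotient.mk_eq_zero, ← Submodule.mkQ_apply, map_sum, ← hc]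
    refine Finset.sum_congr rfl fun i _ => ?_
    rw [← map_smul, smul_mono, mul_one]
  obtain ⟨α, hα, o, ho, hsum⟩ := Submodule.mem_sup.1 h1
  have hC := (hKB K g γ a hK).2.1 (cf o 0)
  have ho' : -(o - LS.C (cf o 0)) ∈ GE K 1 := by
    intro n hn
    rw [cf_neg, cf_sub, cf_C]
    rcases lt_or_eq_of_le (Int.lt_add_one_iff.1 (by simpa using hn) : n ≤ 0) with h | h
    · rw [ho n h, if_neg h.ne, sub_zero, neg_zero]
    · subst h; rw [if_pos rfl, sub_self, neg_zero]
  have hA : -(α + LS.C (cf o 0)) ∈ AA γ a := Submodule.neg_mem _ (Submodule.add_mem _ hα hC)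
  have h2 := (hKA K g γ a hK).2.1 _ hA c _ ho' (by rw [← hsum]; ring)
  intro i
  exact congrFun h2.2.1 i

/-- vector fields applied to functions -/
lemma TD_act {K : Type} [Field K] {g N : ℕ} {γ : Fin g → ℕ} {a : ℕ → LS K} {ν : Fin N → ℕ}
    {τ : ℕ → LS K} (hT : IsT γ a ν τ) {t : LS K} (ht : t ∈ TT ν τ) {f : LS K}
    (hf : f ∈ AA γ a) : t * dd f ∈ AA γ a := by
  unfold TT at ht
  induction ht using Submodule.span_induction with
  | mem y hy =>
    obtain ⟨n, h1, h2, rfl⟩ := hy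
    unfold AA at hf
    induction hf using Submodule.span_induction with
    | mem z hz =>
      obtain ⟨r, hr, rfl⟩ := hz
      exact hT.act n r h1 h2 hr
    | zero => rw [map_zero, mul_zero]; exact Submodule.zero_mem _
    | add z z' _ _ h h' => rw [map_add, mul_add]; exact Submodule.add_mem _ h h'
    | smul c z _ h =>
      rw [map_smul, ← C_mul, mul_left_comm, C_mul]
      exact Submodule.smul_mem _ _ h
  | zero => rw [zero_mul]; exact Submodule.zero_mem _
  | add y y' _ _ h h' => rw [add_mul]; exact Submodule.add_mem _ h h'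
  | smul c y _ h =>
    rw [← C_mul, mul_assoc, C_mul]
    exact Submodule.smul_mem _ _ h

/-- **TD** -/
theorem TD (hKA : KA_stmt) (hKB : KB_stmt) : TD_stmt := by
  intro K _ g N γ a ν τ hK hT θ M hM hθ S hS g₀ hg₀ hw hw0 hSw x hx
  set w : LS K := dd g₀ with hwdef
  set E : Submodule K (LS K) := AA γ a ⊔ PS K with hE
  -- every Laurent series is a combination of the `θ i` modulo vector fields and power series
  have hdec : ∀ y : LS K, ∃ d : Fin N → K, ∃ t ∈ TT ν τ, ∃ ρ ∈ PS K,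
      y = (∑ i, LS.C (d i) * θ i) + t + ρ := by
    intro y
    obtain ⟨c, t, ht, ρ, hρ, hy⟩ := TD_dec hT y
    set d : Fin N → K := M⁻¹.mulVec c with hd
    have hMd : M.mulVec d = c := by
      rw [hd, Matrix.mulVec_mulVec, Matrix.mul_nonsing_inv _ (isUnit_iff_ne_zero.2 hM),
        Matrix.one_mulVec]
    have hθ' : (∑ i, LS.C (d i) * (θ i - ∑ j, mono (-(ν j : ℤ)) (M j i))) ∈ PS K := by
      refine Submodule.sum_mem _ fun i _ => ?_
      rw [C_mul]
      exact Submodule.smul_mem _ _ (hθ i)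
    have hc : (∑ j, mono (-(ν j : ℤ)) (c j) : LS K)
        = ∑ i, LS.C (d i) * ∑ j, mono (-(ν j : ℤ)) (M j i) := by
      simp_rw [Finset.mul_sum]
      rw [Finset.sum_comm]
      refine Finset.sum_congr rfl fun j _ => ?_
      rw [← hMd]
      ext n
      rw [cf_mono, cf_sum, Matrix.mulVec, dotProduct]
      split_ifs with h
      · refine Finset.sum_congr rfl fun i _ => ?_
        rw [cf_C_mul, cf_mono, if_pos h, mul_comm]
      · refine (Finset.sum_eq_zero fun i _ => ?_).symm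
        rw [cf_C_mul, cf_mono, if_neg h, mul_zero]
    refine ⟨d, t, ht, ρ - ∑ i, LS.C (d i) * (θ i - ∑ j, mono (-(ν j : ℤ)) (M j i)),
      Submodule.sub_mem _ hρ hθ', ?_⟩
    rw [hy, hc]
    simp_rw [mul_sub, Finset.sum_sub_distrib]
    ring
  -- the linear map `d ↦ (∑ d_i θ_i) w` modulo `A + R[[s]]`
  let φ : (Fin N → K) →ₗ[K] LS K :=
    { toFun := fun d => (∑ i, LS.C (d i) * θ i) * w
      map_add' := fun d d' => by
        rw [← add_mul, ← Finset.sum_add_distrib]
        congr 1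
        refine Finset.sum_congr rfl fun i _ => ?_
        rw [Pi.add_apply, map_add, add_mul]
      map_smul' := fun c d => by
        rw [RingHom.id_apply, ← C_mul, ← mul_assoc, Finset.mul_sum]
        congr 1
        refine Finset.sum_congr rfl fun i _ => ?_
        rw [Pi.smul_apply, smul_eq_mul, map_mul, mul_assoc] }
  have hφ : ∀ d, φ d = (∑ i, LS.C (d i) * θ i) * w := fun d => rfl
  let Ψ : (Fin N → K) →ₗ[K] (LS K ⧸ E) := E.mkQ.comp φ
  have hΨ : ∀ d, Ψ d = E.mkQ (φ d) := fun d => rfl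
  have htE : ∀ t ∈ TT ν τ, t * w ∈ E := fun t ht => Submodule.mem_sup_left (TD_act hT ht hg₀)
  have hρE : ∀ ρ ∈ PS K, ρ * w ∈ E := fun ρ hρ => Submodule.mem_sup_right (PS_mul hρ hw)
  have hsurj : Function.Surjective Ψ := by
    intro y
    obtain ⟨y, rfl⟩ := E.mkQ_surjective y
    obtain ⟨d, t, ht, ρ, hρ, hy⟩ := hdec (y / w)
    refine ⟨d, ?_⟩
    rw [hΨ, ← sub_eq_zero, ← map_sub, Submodule.mkQ_apply, Submodule.Quotient.mk_eq_zero, hφ]
    have h1 : y = (∑ i, LS.C (d i) * θ i) * w + (t * w + ρ * w) := by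
      calc y = (y / w) * w := (div_mul_cancel₀ y hw0).symm
        _ = _ := by rw [hy]; ring
    have h2 : (∑ i, LS.C (d i) * θ i) * w - y = -(t * w + ρ * w) := by
      linear_combination -h1
    rw [h2]
    exact Submodule.neg_mem _ (Submodule.add_mem _ (htE t ht) (hρE ρ hρ))
  have : FiniteDimensional K (LS K ⧸ E) := Module.Finite.of_surjective Ψ hsurj
  have hg : g ≤ Module.finrank K (LS K ⧸ E) := by
    have := (TD_ind hKA hKB hK).fintype_card_le_finrank
    simpa using this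
  have hker : Module.finrank K (LinearMap.ker Ψ) + g ≤ N := by
    have h1 := LinearMap.finrank_range_add_finrank_ker Ψ
    rw [LinearMap.range_eq_top.2 hsurj, finrank_top, Module.finrank_fin_fun] at h1
    omega
  have hSle : S ≤ LinearMap.ker Ψ := by
    intro d hd
    obtain ⟨α, hα, o, ho, h⟩ := hSw d hd
    rw [LinearMap.mem_ker, hΨ, Submodule.mkQ_apply, Submodule.Quotient.mk_eq_zero, hφ, h]
    exact Submodule.add_mem_sup hα ho
  have hSeq : S = LinearMap.ker Ψ :=
    Submodule.eq_of_le_of_finrank_le hSle (by omega)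
  obtain ⟨d, t, ht, ρ, hρ, hx'⟩ := hdec x
  refine ⟨d, ?_, t, ht, ρ, hρ, hx'⟩
  obtain ⟨α, hα, o, ho, h⟩ := hx
  rw [hSeq, LinearMap.mem_ker, hΨ, Submodule.mkQ_apply, Submodule.Quotient.mk_eq_zero, hφ]
  have h3 : (∑ i, LS.C (d i) * θ i) * w = (α + o) - (t * w + ρ * w) := by
    rw [← h, hx']
    ring
  rw [h3]
  exact Submodule.sub_mem _ (Submodule.add_mem_sup hα ho)
    (Submodule.add_mem _ (htE t ht) (hρE ρ hρ))

end

end AN
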